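import Pool.Agent.Helper2.FR.Defs
import Pool.Agent.Helper42.AV.RD2
import Pool.Agent.Helper98.MT.MaxTorus

/-!
Blocks FD1, FD2 of project FR (helper2): the data of a bad place in a block and on an irreducible
subspace.
-/

set_option linter.unusedSectionVars false
set_option linter.unusedVariables false

open Module MTPairs

namespace FR

open MTP UN AV

section
variable {K : Type*} [Field K] [CharZero K] {V : Type*} [AddCommGroup V]
  [Module K V] [FiniteDimensional K V]

private lemma eig_rat21 {h : Module.End K V} (hdiag : ⨆ q : ℚ, h.eigenspace (q : K) = ⊤) {μ : K}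
    (hμ : h.eigenspace μ ≠ ⊥) : ∃ q : ℚ, (q : K) = μ := by
  by_contra hno
  push Not at hno
  have h1 := (Module.End.eigenspaces_iSupIndep h) μ
  apply hμ
  have h2 : ⨆ (j : K) (_ : j ≠ μ), h.eigenspace j = ⊤ := by
    rw [eq_top_iff, ← hdiag]
    exact iSup_le fun q => le_iSup₂_of_le (q : K) (hno q) le_rfl
  rw [h2] at h1
  exact disjoint_top.1 h1

private lemma diag_rw21 {h : Module.End K V} {W : Submodule K V} (hst : ∀ w ∈ W, h w ∈ W)
    (hdiag : ⨆ q : ℚ, h.eigenspace (q : K) = ⊤) : ⨆ q : ℚ, (Rw W h).eigenspace (q : K) = ⊤ := by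
  have h1 : W ≤ ⨆ q : ℚ, W ⊓ h.eigenspace (q : K) := by
    have h2 := Submodule.inf_iSup_genEigenspace (p := W) (f := h) hst 1
    have h3 : ⨆ μ : K, h.genEigenspace μ 1 = ⊤ := by
      rw [eq_top_iff, ← hdiag]
      exact iSup_le fun q => le_iSup_of_le (q : K) le_rfl
    rw [h3, inf_top_eq] at h2
    refine h2.le.trans (iSup_le fun μ => ?_)
    by_cases hμ : h.eigenspace μ = ⊥
    · have h4 : h.genEigenspace μ 1 = ⊥ := hμ
      rw [h4, inf_bot_eq]
      exact bot_le
    · obtain ⟨q, rfl⟩ := eig_rat21 hdiag hμ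
      exact le_iSup_of_le q le_rfl
  rw [eq_top_iff]
  intro w _
  have hw : (w : V) ∈ ⨆ q : ℚ, W ⊓ h.eigenspace (q : K) := h1 w.2
  have h3 : (⨆ q : ℚ, W ⊓ h.eigenspace (q : K)) ≤
      (⨆ q : ℚ, (Rw W h).eigenspace (q : K)).map W.subtype := by
    refine iSup_le fun q v hv => ?_
    refine ⟨⟨v, hv.1⟩, ?_, rfl⟩
    refine Submodule.mem_iSup_of_mem q ?_
    rw [Module.End.mem_eigenspace_iff]
    apply Subtype.ext
    rw [Rw_coe hst]
    exact Module.End.mem_eigenspace_iff.1 hv.2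
  obtain ⟨w', hw', he⟩ := h3 hw
  rwa [← Subtype.ext he]

end

section
variable {K : Type*} [Field K] [CharZero K] [IsAlgClosed K] {V : Type*} [AddCommGroup V]
  [Module K V] [FiniteDimensional K V]
  {ω : LinearMap.BilinForm K V} {G : Set (Module.End K V)}
  {T : Set (Module.End K V ≃+* Module.End K V)} {p0 ε : Module.End K V} {W : Submodule K V}
  {N h : Module.End K V}

private lemma plc_NN21 (hp : Plc G T p0 N h) : N * N = 0 := by
  obtain ⟨p, -, hp2, hp3, -⟩ := hp.p
  calc N * N = N * (p * N) := by rw [hp2]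
    _ = 0 := by rw [← mul_assoc, hp3, zero_mul]

private lemma plc_NA21 (U : MStr ω G T p0) (hp : Plc G T p0 N h) : N ∈ AA G T p0 := by
  have h1 := (AA G T p0).sub_mem (U.g_mem hp.mem) (AA G T p0).one_mem
  rwa [add_sub_cancel_left] at h1

/-- the normalized trace of `h` in the block is rational -/
private lemma rat_tr21 (hε : ε * ε = ε) (hc : h * ε = ε * h)
    (hdiag : ⨆ q : ℚ, h.eigenspace (q : K) = ⊤) :
    ∃ a b : ℚ, LinearMap.trace K V (h * ε) = (a : K) ∧ LinearMap.trace K V ε = (b : K) := by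
  classical
  have h1 : RSD ({h} : Set (Module.End K V)) := by
    unfold RSD
    rw [eq_top_iff, ← hdiag]
    refine iSup_le fun q v hv => Submodule.subset_span ?_
    intro z hz
    rw [Set.mem_singleton_iff.1 hz]
    exact ⟨q, Module.End.mem_eigenspace_iff.1 hv⟩
  have hs : (2 • ε - 1) * (2 • ε - 1) = (1 : Module.End K V) := by
    have e1 : (2 • ε - 1) * (2 • ε - 1) = 4 • (ε * ε) - 4 • ε + 1 := by noncomm_ring
    rw [e1, hε, sub_self, zero_add]
  have h2 := h1.adjoin hs (by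
    intro z hz
    rw [Set.mem_singleton_iff.1 hz]
    have e1 : (2 • ε - 1) * h = 2 • (ε * h) - h := by noncomm_ring
    have e2 : h * (2 • ε - 1) = 2 • (h * ε) - h := by noncomm_ring
    rw [e1, e2, hc])
  obtain ⟨b, hb⟩ := h2.basis
  obtain ⟨f, hf⟩ := hb h (Set.mem_insert_of_mem _ rfl)
  obtain ⟨g, hg⟩ := hb (2 • ε - 1) (Set.mem_insert _ _)
  have hεb : ∀ i, ε (b i) = ((((g i + 1) / 2 : ℚ)) : K) • b i := by
    intro i
    have e1 := hg i
    rw [LinearMap.sub_apply, LinearMap.smul_apply, Module.End.one_apply] at e1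
    have e2 : (2 : K) • ε (b i) = ((g i : K) + 1) • b i := by
      rw [add_smul, one_smul, ← e1, two_smul, two_nsmul]
      abel
    push_cast
    calc ε (b i) = (2 : K)⁻¹ • (2 : K) • ε (b i) := by rw [smul_smul, inv_mul_cancel₀ two_ne_zero, one_smul]
      _ = _ := by rw [e2, smul_smul]; congr 1; ring
  refine ⟨∑ i, f i * ((g i + 1) / 2), ∑ i, (g i + 1) / 2, ?_, ?_⟩
  · rw [LinearMap.trace_eq_matrix_trace K b, Matrix.trace]
    push_cast
    refine Finset.sum_congr rfl fun i _ => ?_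
    rw [Matrix.diag_apply, LinearMap.toMatrix_apply, Module.End.mul_apply, hεb, map_smul, hf, smul_smul, map_smul,
      Finsupp.smul_apply, Basis.repr_self, Finsupp.single_eq_same, smul_eq_mul, mul_one]
    push_cast
    ring
  · rw [LinearMap.trace_eq_matrix_trace K b, Matrix.trace]
    push_cast
    refine Finset.sum_congr rfl fun i _ => ?_
    rw [Matrix.diag_apply, LinearMap.toMatrix_apply, hεb, map_smul,
      Finsupp.smul_apply, Basis.repr_self, Finsupp.single_eq_same, smul_eq_mul, mul_one]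
    push_cast
    ring

/-- FD1 -/
theorem plc_lb (U : MStr ω G T p0) (hp : Plc G T p0 N h) (hε : Bl (AA G T p0) ε) :
    N * N = 0 ∧ N ∈ AA G T p0 ∧ N * ε ∈ Lb G T p0 ε ∧ ∃ c : ℚ, (h - (c : K) • 1) * ε ∈ Lb G T p0 ε := by
  have hNN := plc_NN21 hp
  refine ⟨hNN, plc_NA21 U hp, ?_, ?_⟩
  · have h1 := U.quad_lb hε hp.mem (by rw [add_sub_cancel_left]; exact hNN)
    rwa [add_sub_cancel_left] at h1
  · obtain ⟨a, b, ha, hb⟩ := rat_tr21 hε.idem (hε.cen h hp.hA).symm hp.diag
    have hb0 : (b : K) ≠ 0 := by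
      rw [← hb]
      exact U.trace_bl_ne hε
    refine ⟨a / b, ?_⟩
    obtain ⟨W, hW, hWε⟩ := hε.exists_irr
    have := hW.nontrivial
    have hA : h - ((a / b : ℚ) : K) • 1 ∈ AA G T p0 :=
      (AA G T p0).sub_mem hp.hA ((AA G T p0).smul_mem (AA G T p0).one_mem _)
    apply Rs.mem_of_normalize (U.ssA.rs hε hW hWε) (U.lb_le hε)
      (fun x hx y hy => U.lb_br hε hx hy) (fun X hX => U.irr_lb hε hW hWε X hX)
      (fun x hx => U.lb_tr hε hx) ⟨(AA G T p0).mul_mem hA hε.mem, by rw [mul_assoc, hε.idem]⟩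
    · rw [sub_mul, smul_mul_assoc, one_mul, map_sub, map_smul, ha, hb, smul_eq_mul]
      push_cast
      field_simp
      ring
    · intro x hx
      obtain ⟨y, hy, rfl⟩ := hx
      have e0 : (LinearMap.mulRight K ε) y = y * ε := rfl
      rw [e0]
      have hyA := U.ml_mem hy
      have e1 := hε.cen _ hA
      have e2 := hε.cen _ hyA
      refine ⟨h * y - y * h, hp.norm y hy, ?_⟩
      have e3 : (LinearMap.mulRight K ε) (h * y - y * h) = (h * y - y * h) * ε := rfl
      rw [e3]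
      have e4 : (h - ((a / b : ℚ) : K) • 1) * ε * (y * ε) = (h - ((a / b : ℚ) : K) • 1) * y * ε := by
        calc (h - ((a / b : ℚ) : K) • 1) * ε * (y * ε) = (h - ((a / b : ℚ) : K) • 1) * (ε * y) * ε := by
              simp only [mul_assoc]
          _ = (h - ((a / b : ℚ) : K) • 1) * (y * ε) * ε := by rw [e2]
          _ = (h - ((a / b : ℚ) : K) • 1) * y * (ε * ε) := by simp only [mul_assoc]
          _ = _ := by rw [hε.idem]
      have e5 : y * ε * ((h - ((a / b : ℚ) : K) • 1) * ε) = y * (h - ((a / b : ℚ) : K) • 1) * ε := by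
        calc y * ε * ((h - ((a / b : ℚ) : K) • 1) * ε) = y * (ε * (h - ((a / b : ℚ) : K) • 1)) * ε := by
              simp only [mul_assoc]
          _ = y * ((h - ((a / b : ℚ) : K) • 1) * ε) * ε := by rw [e1]
          _ = y * (h - ((a / b : ℚ) : K) • 1) * (ε * ε) := by simp only [mul_assoc]
          _ = _ := by rw [hε.idem]
      rw [e4, e5]
      simp only [sub_mul, mul_sub, smul_mul_assoc, mul_smul_comm, one_mul, mul_one]
      abel

/-- FD2: the restriction of the data to an irreducible subspace. -/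
theorem plc_rw (U : MStr ω G T p0) (hp : Plc G T p0 N h)
    (hW : Irr (AA G T p0 : Set (Module.End K V)) W) :
    Rw W N * Rw W N = 0 ∧ (∃ σ : K, Rw W h * Rw W N = σ • Rw W N) ∧
    (∃ τ : K, Rw W N * Rw W h = τ • Rw W N) ∧ ⨆ q : ℚ, (Rw W h).eigenspace (q : K) = ⊤ := by
  have hNs : ∀ w ∈ W, N w ∈ W := fun w hw => hW.st N (plc_NA21 U hp) w hw
  have hhs : ∀ w ∈ W, h w ∈ W := fun w hw => hW.st h hp.hA w hw
  refine ⟨?_, ?_, ?_, diag_rw21 hhs hp.diag⟩
  · ext w
    rw [Module.End.mul_apply, Rw_coe hNs, Rw_coe hNs, ← Module.End.mul_apply, plc_NN21 hp]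
    rfl
  · obtain ⟨σ, hσ⟩ := hp.σ
    refine ⟨σ, ?_⟩
    ext w
    rw [Module.End.mul_apply, Rw_coe hhs, Rw_coe hNs, ← Module.End.mul_apply, hσ, LinearMap.smul_apply,
      LinearMap.smul_apply, Submodule.coe_smul, Rw_coe hNs]
  · obtain ⟨τ, hτ⟩ := hp.τ
    refine ⟨τ, ?_⟩
    ext w
    rw [Module.End.mul_apply, Rw_coe hNs, Rw_coe hhs, ← Module.End.mul_apply, hτ, LinearMap.smul_apply,
      LinearMap.smul_apply, Submodule.coe_smul, Rw_coe hNs]

end

end FR
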